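import Mathlib

/-!
# The Cauchy-Binet formula for sums of rank one matrices (helper2)
-/

set_option autoImplicit false

namespace Pool.Agent.H2CB

open Finset

variable {E : Type*} [Fintype E] [DecidableEq E] {k : ℕ}

section ring

variable {K : Type*} [CommRing K]

/-- The sum of the rank one matrices `v x ⊗ w x`, `x ∈ A`. -/
def M (v w : E → Fin k → K) (A : Finset E) : Matrix (Fin k) (Fin k) K :=
  Matrix.of fun i j => ∑ x ∈ A, v x i * w x j

/-- The determinant of the matrix with rows `v (r i) i • w (r i)`. -/
def g (v w : E → Fin k → K) (r : Fin k → E) : K :=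
  (Matrix.of fun i j => v (r i) i * w (r i) j).det

theorem g_eq (v w : E → Fin k → K) (r : Fin k → E) :
    g v w r = (∏ i, v (r i) i) * (Matrix.of fun i j => w (r i) j).det := by
  unfold g
  rw [← Matrix.det_mul_column (fun i => v (r i) i) (Matrix.of fun i j => w (r i) j)]
  congr 1

theorem g_zero (v w : E → Fin k → K) {r : Fin k → E} (h : ¬ Function.Injective r) :
    g v w r = 0 := by
  rw [g_eq]
  unfold Function.Injective at h
  push_neg at h
  obtain ⟨a, b, hab, hne⟩ := h
  rw [Matrix.det_zero_of_row_eq hne, mul_zero]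
  ext j
  simp [hab]

theorem det_M (v w : E → Fin k → K) (A : Finset E) :
    (M v w A).det = ∑ r ∈ Fintype.piFinset (fun _ : Fin k => A), g v w r := by
  have h := (Matrix.detRowAlternating (n := Fin k) (R := K)).toMultilinearMap.map_sum_finset
    (fun i x => v x i • w x) (fun _ => A)
  have e1 : (Matrix.detRowAlternating (n := Fin k) (R := K)).toMultilinearMap
      (fun i => ∑ x ∈ A, v x i • w x) = (M v w A).det := by
    change Matrix.det _ = _
    congr 1
    ext i j
    simp [M, Finset.sum_apply]
  rw [e1] at h
  rw [h]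
  refine Finset.sum_congr rfl fun r _ => ?_
  change Matrix.det _ = _
  unfold g
  congr 1

/-- **Cauchy-Binet.** -/
theorem cb (v w : E → Fin k → K) (S : Finset E) :
    (M v w S).det = ∑ A ∈ S.powersetCard k, (M v w A).det := by
  simp_rw [det_M]
  have h1 : ∀ A : Finset E, ∑ r ∈ Fintype.piFinset (fun _ : Fin k => A), g v w r =
      ∑ r : Fin k → E, if univ.image r ⊆ A then g v w r else 0 := by
    intro A
    rw [← Finset.sum_filter]
    refine Finset.sum_congr ?_ fun _ _ => rfl
    ext r
    simp [Fintype.mem_piFinset, Finset.image_subset_iff]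
  simp_rw [h1]
  rw [Finset.sum_comm]
  refine Finset.sum_congr rfl fun r _ => ?_
  by_cases hr : Function.Injective r
  · have hcard : (univ.image r).card = k := by
      rw [Finset.card_image_of_injective _ hr, Finset.card_univ, Fintype.card_fin]
    by_cases hS : univ.image r ⊆ S
    · rw [if_pos hS, Finset.sum_eq_single (univ.image r)]
      · rw [if_pos (Finset.Subset.refl _)]
      · intro A hA hne
        rw [if_neg]
        intro hsub
        exact hne (Finset.eq_of_subset_of_card_le hsub
          (by rw [hcard, (Finset.mem_powersetCard.1 hA).2])).symm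
      · intro h
        exact absurd (Finset.mem_powersetCard.2 ⟨hS, hcard⟩) h
    · rw [if_neg hS]
      symm
      refine Finset.sum_eq_zero fun A hA => if_neg fun hsub => hS ?_
      exact hsub.trans (Finset.mem_powersetCard.1 hA).1
  · simp [g_zero v w hr]

theorem cb0 (v w : E → Fin k → K) {D : Finset E} (hD : D.card < k) : (M v w D).det = 0 := by
  rw [cb, Finset.powersetCard_eq_empty.2 hD, Finset.sum_empty]

theorem M_compl (v w : E → Fin k → K) (hrel : ∀ i j, ∑ x, v x i * w x j = 0) (D : Finset E) :
    M v w Dᶜ = - M v w D := by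
  ext i j
  have := Finset.sum_add_sum_compl D (fun x => v x i * w x j)
  rw [hrel i j] at this
  simp only [M, Matrix.of_apply, Matrix.neg_apply]
  exact (neg_eq_of_add_eq_zero_right this).symm

/-- The sets which avoid `D` sum up to zero. -/
theorem avoid (v w : E → Fin k → K) (hrel : ∀ i j, ∑ x, v x i * w x j = 0) {D : Finset E}
    (hD : D.card < k) : ∑ A ∈ (Dᶜ).powersetCard k, (M v w A).det = 0 := by
  rw [← cb, M_compl v w hrel, Matrix.det_neg, cb0 v w hD, mul_zero]

/-- The sets which contain `C` sum up to zero. -/
theorem htot (v w : E → Fin k → K) (hrel : ∀ i j, ∑ x, v x i * w x j = 0) {C : Finset E}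
    (hC : C.card < k) :
    ∑ A ∈ (univ.powersetCard k).filter (fun A => C ⊆ A), (M v w A).det = 0 := by
  have h1 : ∀ A : Finset E, (if C ⊆ A then (M v w A).det else 0) =
      ∑ D ∈ C.powerset, (-1 : K) ^ D.card * (if A ⊆ Dᶜ then (M v w A).det else 0) := by
    intro A
    have e : ∀ D ∈ C.powerset, (-1 : K) ^ D.card * (if A ⊆ Dᶜ then (M v w A).det else 0) =
        if D ⊆ C \ A then (-1 : K) ^ D.card * (M v w A).det else 0 := by
      intro D hD
      have hDC : D ⊆ C := Finset.mem_powerset.1 hD
      have : A ⊆ Dᶜ ↔ D ⊆ C \ A := by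
        constructor
        · intro h x hx
          refine Finset.mem_sdiff.2 ⟨hDC hx, fun hxA => ?_⟩
          exact (Finset.mem_compl.1 (h hxA)) hx
        · intro h x hx
          refine Finset.mem_compl.2 fun hxD => ?_
          exact (Finset.mem_sdiff.1 (h hxD)).2 hx
      by_cases hA : A ⊆ Dᶜ
      · rw [if_pos hA, if_pos (this.1 hA)]
      · rw [if_neg hA, if_neg (fun h => hA (this.2 h)), mul_zero]
    rw [Finset.sum_congr rfl e, ← Finset.sum_filter]
    have e2 : C.powerset.filter (fun D => D ⊆ C \ A) = (C \ A).powerset := by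
      ext D
      simp only [Finset.mem_filter, Finset.mem_powerset]
      exact ⟨fun h => h.2, fun h => ⟨h.trans Finset.sdiff_subset, h⟩⟩
    rw [e2, ← Finset.sum_mul]
    have e3 : ∑ D ∈ (C \ A).powerset, (-1 : K) ^ D.card = if C \ A = ∅ then 1 else 0 := by
      have := Finset.sum_powerset_neg_one_pow_card (x := C \ A)
      have h2 := congrArg (Int.cast : ℤ → K) this
      push_cast at h2
      rw [h2]
    rw [e3]
    by_cases hCA : C ⊆ A
    · rw [if_pos hCA, if_pos (Finset.sdiff_eq_empty_iff_subset.2 hCA), one_mul]
    · rw [if_neg hCA, if_neg (fun h => hCA (Finset.sdiff_eq_empty_iff_subset.1 h)), zero_mul]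
  rw [Finset.sum_filter, Finset.sum_congr rfl fun A _ => h1 A, Finset.sum_comm]
  refine Finset.sum_eq_zero fun D hD => ?_
  have hDc : D.card < k :=
    lt_of_le_of_lt (Finset.card_le_card (Finset.mem_powerset.1 hD)) hC
  rw [← Finset.mul_sum, ← Finset.sum_filter]
  have e4 : (univ.powersetCard k).filter (fun A : Finset E => A ⊆ Dᶜ) = (Dᶜ).powersetCard k := by
    ext A
    simp only [Finset.mem_filter, Finset.mem_powersetCard, Finset.subset_univ, true_and]
    exact and_comm
  rw [e4, avoid v w hrel hDc, mul_zero]

end ring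

section field

variable {K : Type*} [Field K]

/-- For a set of `k` elements the determinant is nonzero iff both families are independent. -/
theorem det_M_ne_zero_iff (v w : E → Fin k → K) {A : Finset E} (hA : A.card = k) :
    (M v w A).det ≠ 0 ↔ LinearIndepOn K v (A : Set E) ∧ LinearIndepOn K w (A : Set E) := by
  classical
  have hc : Fintype.card A = k := by simpa using hA
  let e : Fin k ≃ A := (Fintype.equivFinOfCardEq hc).symm
  have h1 : M v w A = (Matrix.of fun i : Fin k => v (e i)).transpose *
      (Matrix.of fun i : Fin k => w (e i)) := by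
    ext i j
    simp only [M, Matrix.of_apply, Matrix.mul_apply, Matrix.transpose_apply]
    rw [← Finset.sum_coe_sort A (fun x => v x i * w x j)]
    exact (Equiv.sum_comp e (fun x : A => v x i * w x j)).symm
  have h2 : ∀ u : E → Fin k → K, (Matrix.of fun i : Fin k => u (e i)).det ≠ 0 ↔
      LinearIndepOn K u (A : Set E) := by
    intro u
    have h3 : LinearIndepOn K u (A : Set E) ↔
        LinearIndependent K (fun i : Fin k => u (e i)) := by
      unfold LinearIndepOn
      rw [← linearIndependent_equiv e]
      exact Iff.rfl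
    rw [h3, ← isUnit_iff_ne_zero, ← Matrix.isUnit_iff_isUnit_det,
      ← Matrix.linearIndependent_rows_iff_isUnit]
    exact Iff.rfl
  rw [h1, Matrix.det_mul, Matrix.det_transpose, mul_ne_zero_iff, h2, h2]

end field

end Pool.Agent.H2CB
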